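import Pool.Agent.Helper93_BAN.EB
import Pool.Agent.Helper68_BAN.Stmt2

set_option autoImplicit false

/-!
# EB2: error bound for the symmetry group of a gauge (squad BAN)
-/

namespace Pool.Agent.BAN.H93

open Filter Topology Set Pool.Agent.BAN

/-- A gauge is bounded by a multiple of the norm. -/
lemma gau_bound {V : Type} [NormedAddCommGroup V] [InnerProductSpace ℝ V]
    [FiniteDimensional ℝ V] {φ : V → ℝ} (h : Gau φ) :
    ∃ M : ℝ, 0 ≤ M ∧ ∀ v, φ v ≤ M * ‖v‖ := by
  have hz : φ 0 = 0 := by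
    have := h.hom 0 0 le_rfl
    simpa using this
  have hnn : ∀ v, 0 ≤ φ v := fun v => by
    by_cases hv : v = 0
    · rw [hv, hz]
    · exact (h.pos v hv).le
  set b := stdOrthonormalBasis ℝ V with hb
  refine ⟨∑ i, (φ (b i) + φ (-b i)), Finset.sum_nonneg fun i _ => add_nonneg (hnn _) (hnn _),
    fun v => ?_⟩
  calc φ v = φ (∑ i, (inner ℝ (b i) v) • b i) := by rw [b.sum_repr' v]
    _ ≤ ∑ i, φ ((inner ℝ (b i) v : ℝ) • b i) :=
      Finset.le_sum_of_subadditive φ hz.le h.sub _ _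
    _ ≤ ∑ i, (φ (b i) + φ (-b i)) * ‖v‖ := by
      refine Finset.sum_le_sum fun i _ => ?_
      have h1 : |(inner ℝ (b i) v : ℝ)| ≤ ‖v‖ := by
        refine (abs_real_inner_le_norm _ _).trans ?_
        rw [b.norm_eq_one, one_mul]
      have h2 := hnn (b i)
      have h3 := hnn (-b i)
      rcases le_total 0 (inner ℝ (b i) v : ℝ) with hc | hc
      · rw [h.hom _ _ hc]
        rw [abs_of_nonneg hc] at h1
        nlinarith [norm_nonneg v]
      · have h4 : (inner ℝ (b i) v : ℝ) • b i = (-(inner ℝ (b i) v : ℝ)) • (-b i) := by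
          rw [smul_neg, neg_smul, neg_neg]
        rw [h4, h.hom _ _ (neg_nonneg.2 hc)]
        rw [abs_of_nonpos hc] at h1
        nlinarith [norm_nonneg v]
    _ = (∑ i, (φ (b i) + φ (-b i))) * ‖v‖ := by rw [Finset.sum_mul]

lemma gau_continuous {V : Type} [NormedAddCommGroup V] [InnerProductSpace ℝ V]
    [FiniteDimensional ℝ V] {φ : V → ℝ} (h : Gau φ) : Continuous φ := by
  obtain ⟨M, hM0, hM⟩ := gau_bound h
  have h2 : LipschitzWith ⟨M, hM0⟩ φ := by
    refine LipschitzWith.of_dist_le_mul fun x y => ?_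
    rw [Real.dist_eq, dist_eq_norm]
    have h3 : φ x ≤ φ (x - y) + φ y := by
      have := h.sub (x - y) y
      rwa [sub_add_cancel] at this
    have h4 : φ y ≤ φ (y - x) + φ x := by
      have := h.sub (y - x) x
      rwa [sub_add_cancel] at this
    have h5 := hM (x - y)
    have h6 := hM (y - x)
    rw [norm_sub_rev y x] at h6
    rw [abs_le]
    constructor
    · change -(M * ‖x - y‖) ≤ _
      linarith
    · change _ ≤ M * ‖x - y‖
      linarith
  exact h2.continuous

theorem eb2 (hPL : PLStmt) : EB2Stmt := by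
  intro V _ _ _ φ hφ iso R
  obtain ⟨C, hC0, hC⟩ := ebGen (𝕜 := ℝ) hPL φ (gau_continuous hφ) iso R
  exact ⟨C, hC0, fun g δ h1 h2 h3 => hC g δ h1 h2 h3⟩

end Pool.Agent.BAN.H93
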