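import Pool.Agent.Helper93_BAN.Common

set_option autoImplicit false

/-!
# SQRT: square roots in a closed group of isometries (squad BAN)
-/

namespace Pool.Agent.BAN.H93

open Filter Topology Set Pool.Agent.BAN

theorem sqrt (hPL : PLStmt) (hROOT : ROOTStmt) : SQRTStmt := by
  intro 𝕜 _ V _ _ _ K hK
  obtain ⟨r0, hr0, hroot⟩ := hROOT 𝕜 V
  have hcomp : IsCompact K := isCompact_of_iso hK.closed hK.iso
  by_contra hcon
  push Not at hcon
  have hr : ∀ i : ℕ, 0 < r0 / ((i : ℝ) + 1) := fun i => by positivity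
  choose κ hκK hκr hκno using fun i : ℕ => hcon (r0 / ((i : ℝ) + 1)) (hr i)
  have hκ1 : ∀ i, ‖κ i - 1‖ ≤ r0 := fun i => (hκr i).trans (by
    apply div_le_self hr0.le
    have : (0 : ℝ) ≤ (i : ℝ) := Nat.cast_nonneg i
    linarith)
  have hκ0 : Tendsto (fun i => ‖κ i - 1‖) atTop (𝓝 0) := by
    have h := (tendsto_one_div_add_atTop_nhds_zero_nat (𝕜 := ℝ)).const_mul r0
    rw [mul_zero] at h
    refine squeeze_zero (fun _ => norm_nonneg _) (fun i => ?_) h
    have := hκr i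
    rwa [div_eq_mul_one_div] at this
  choose a haa ha1 using fun i => hroot (κ i) (hκ1 i)
  have haK : ∀ i, a i ∉ K := fun i hi => by
    have := hκno i (a i) hi (haa i)
    exact absurd (ha1 i) (not_le.2 this)
  choose μ hμK hμmin using fun i => exists_nearest hcomp ⟨1, hK.one⟩ (a i)
  choose n hnK hn1 hn2 using fun i => hK.inv (μ i) (hμK i)
  -- the deviation
  set E : ℕ → V →L[𝕜] V := fun i => n i * a i - 1 with hE
  have hμE : ∀ i, μ i * E i = a i - μ i := fun i => by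
    simp only [hE, mul_sub, mul_one, ← mul_assoc, hn2, one_mul]
  have hEnorm : ∀ i, ‖E i‖ = ‖a i - μ i‖ := fun i => by
    rw [← hμE i, norm_mul_of_iso (hK.iso _ (hμK i))]
  have hE_le : ∀ i, ‖E i‖ ≤ ‖κ i - 1‖ := fun i => by
    rw [hEnorm]
    exact (hμmin i 1 hK.one).trans (ha1 i)
  have hE0 : Tendsto (fun i => ‖E i‖) atTop (𝓝 0) :=
    squeeze_zero (fun _ => norm_nonneg _) hE_le hκ0
  have hEpos : ∀ i, 0 < ‖E i‖ := fun i => by
    rw [hEnorm]
    refine norm_pos_iff.2 fun h => haK i ?_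
    rw [sub_eq_zero.1 h]
    exact hμK i
  have hEd : ∀ i, ∀ κ' ∈ K, ‖E i‖ ≤ ‖1 + E i - κ'‖ := fun i κ' hκ' => by
    have h1 : μ i * (1 + E i - κ') = a i - μ i * κ' := by
      rw [mul_sub, mul_add, hμE i, mul_one]
      abel
    have h2 : ‖1 + E i - κ'‖ = ‖a i - μ i * κ'‖ := by
      rw [← h1, norm_mul_of_iso (hK.iso _ (hμK i))]
    rw [h2, hEnorm]
    exact hμmin i _ (hK.mul _ (hμK i) _ hκ')
  -- μ → 1, n → 1
  have hμ1 : Tendsto μ atTop (𝓝 1) := by
    rw [tendsto_iff_norm_sub_tendsto_zero]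
    have h : Tendsto (fun i => ‖E i‖ + ‖κ i - 1‖) atTop (𝓝 0) := by
      simpa using hE0.add hκ0
    refine squeeze_zero (fun _ => norm_nonneg _) (fun i => ?_) h
    have h1 : μ i - 1 = -(a i - μ i) + (a i - 1) := by abel
    rw [h1]
    refine (norm_add_le _ _).trans ?_
    rw [norm_neg, ← hEnorm]
    exact add_le_add_right (ha1 i) _
  have hn1' : Tendsto n atTop (𝓝 1) := by
    rw [tendsto_iff_norm_sub_tendsto_zero]
    have h : Tendsto (fun i => ‖μ i - 1‖) atTop (𝓝 0) :=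
      tendsto_iff_norm_sub_tendsto_zero.1 hμ1
    refine squeeze_zero (fun _ => norm_nonneg _) (fun i => ?_) h
    have h1 : μ i * (n i - 1) = -(μ i - 1) := by
      rw [mul_sub, hn2, mul_one]
      abel
    rw [← norm_mul_of_iso (hK.iso _ (hμK i)) (n i - 1), h1, norm_neg]
  have hEto : Tendsto E atTop (𝓝 0) := tendsto_zero_iff_norm_tendsto_zero.2 hE0
  -- the unit directions
  set U : ℕ → V →L[𝕜] V := fun i => ((‖E i‖⁻¹ : ℝ) : 𝕜) • E i with hU
  have hUnorm : ∀ i, ‖U i‖ = 1 := fun i => by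
    simp only [hU]
    rw [norm_smul, RCLike.norm_ofReal, abs_of_pos (inv_pos.2 (hEpos i)),
      inv_mul_cancel₀ (hEpos i).ne']
  have hEU : ∀ i, E i = ((‖E i‖ : ℝ) : 𝕜) • U i := fun i => by
    simp only [hU]
    rw [smul_smul, ← RCLike.ofReal_mul, mul_inv_cancel₀ (hEpos i).ne',
      RCLike.ofReal_one, one_smul]
  obtain ⟨U0, θ, hθ, hUθ⟩ := exists_unit_limit U hUnorm
  have hθt : Tendsto θ atTop atTop := hθ.tendsto_atTop
  -- the element `n κ n`
  set Z : ℕ → V →L[𝕜] V := fun i => U i + μ i * U i * n i + E i * (μ i * U i * n i) with hZ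
  have hkey : ∀ i, 1 + ((‖E i‖ : ℝ) : 𝕜) • Z i = n i * κ i * n i := fun i => by
    have h1 : ((‖E i‖ : ℝ) : 𝕜) • Z i = E i + μ i * E i * n i + E i * (μ i * E i * n i) := by
      have hs : ∀ c : 𝕜, c • Z i = c • U i + μ i * (c • U i) * n i
          + E i * (μ i * (c • U i) * n i) := by
        intro c
        simp only [hZ, smul_add, mul_smul_comm, smul_mul_assoc]
      rw [hs, ← hEU i]
    have h2 : n i * a i = 1 + E i := by
      simp only [hE]
      abel
    have h3 : a i * n i = 1 + μ i * E i * n i := by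
      rw [hμE i, sub_mul, hn2]
      abel
    rw [h1, ← haa i]
    calc 1 + (E i + μ i * E i * n i + E i * (μ i * E i * n i))
        = (1 + E i) * (1 + μ i * E i * n i) := by
          rw [mul_add, mul_one, add_mul, one_mul]
          abel
      _ = (n i * a i) * (a i * n i) := by rw [h2, h3]
      _ = n i * (a i * a i) * n i := by simp only [mul_assoc]
  have hkeyK : ∀ i, 1 + ((‖E i‖ : ℝ) : 𝕜) • Z i ∈ K := fun i => by
    rw [hkey i]
    exact hK.mul _ (hK.mul _ (hnK i) _ (hκK i)) _ (hnK i)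
  have hpow : ∀ g ∈ K, ∀ m : ℕ, g ^ m ∈ K := by
    intro g hg m
    induction m with
    | zero => rw [pow_zero]; exact hK.one
    | succ m ih => rw [pow_succ]; exact hK.mul _ ih _ hg
  have hZθ : Tendsto (Z ∘ θ) atTop (𝓝 ((2 : 𝕜) • U0)) := by
    have h1 : Tendsto (μ ∘ θ) atTop (𝓝 1) := hμ1.comp hθt
    have h2 : Tendsto (n ∘ θ) atTop (𝓝 1) := hn1'.comp hθt
    have h3 : Tendsto (E ∘ θ) atTop (𝓝 0) := hEto.comp hθt
    have h4 := (h1.mul hUθ).mul h2
    have h5 := (hUθ.add h4).add (h3.mul h4)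
    have h6 : U0 + 1 * U0 * 1 + 0 * (1 * U0 * 1) = (2 : 𝕜) • U0 := by
      rw [one_mul, mul_one, zero_mul, add_zero, two_smul]
    rw [h6] at h5
    exact h5
  obtain ⟨C, hC0, hC⟩ := hPL 𝕜 V K hK.closed (fun i => ‖E (θ i)‖) (Z ∘ θ) ((2 : 𝕜) • U0)
    (fun i => hEpos _) (hE0.comp hθt) hZθ (by
      intro t _ _ η _ H hH
      refine hK.closed.mem_of_tendsto hH (Eventually.of_forall fun i => ?_)
      exact hpow _ (hkeyK _) _)
  refine tan_contra (K := K) (E := E ∘ θ) (U := U0) (fun i => hEpos _) (hE0.comp hθt) hUθ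
    (fun i => hEd _) (C / 4) fun t ht0 ht1 => ?_
  obtain ⟨κ', hκ', h⟩ := hC (t / 2) (by linarith) (by linarith)
  refine ⟨κ', hκ', ?_⟩
  have h1 : (((t / 2 : ℝ)) : 𝕜) • ((2 : 𝕜) • U0) = ((t : ℝ) : 𝕜) • U0 := by
    rw [smul_smul]
    congr 1
    push_cast
    ring
  rw [h1] at h
  calc ‖1 + ((t : ℝ) : 𝕜) • U0 - κ'‖ ≤ C * (t / 2) ^ 2 := h
    _ = C / 4 * t ^ 2 := by ring

end Pool.Agent.BAN.H93
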