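import Pool.Agent.Helper10_BAN.Stmt

set_option autoImplicit false

/-!
# Common facts for SQRT and EB (squad BAN)
-/

namespace Pool.Agent.BAN.H93

open Filter Topology Set Pool.Agent.BAN

variable {𝕜 : Type} [RCLike 𝕜] {V : Type} [NormedAddCommGroup V] [InnerProductSpace 𝕜 V]

lemma norm_mul_of_iso {g : V →L[𝕜] V} (hg : ∀ v, ‖g v‖ = ‖v‖) (A : V →L[𝕜] V) :
    ‖g * A‖ = ‖A‖ := by
  apply le_antisymm
  · refine ContinuousLinearMap.opNorm_le_bound _ (norm_nonneg _) fun v => ?_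
    rw [ContinuousLinearMap.mul_apply, hg]
    exact A.le_opNorm v
  · refine ContinuousLinearMap.opNorm_le_bound _ (norm_nonneg _) fun v => ?_
    have h := (g * A).le_opNorm v
    rwa [ContinuousLinearMap.mul_apply, hg] at h

lemma norm_le_one_of_iso {g : V →L[𝕜] V} (hg : ∀ v, ‖g v‖ = ‖v‖) : ‖g‖ ≤ 1 := by
  refine ContinuousLinearMap.opNorm_le_bound _ zero_le_one fun v => ?_
  rw [hg, one_mul]

lemma norm_pow_le (h : V →L[𝕜] V) (j : ℕ) : ‖h ^ j‖ ≤ ‖h‖ ^ j := by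
  induction j with
  | zero =>
    rw [pow_zero, pow_zero]
    exact ContinuousLinearMap.norm_id_le
  | succ j ih =>
    rw [pow_succ, pow_succ]
    exact (norm_mul_le _ _).trans (mul_le_mul_of_nonneg_right ih (norm_nonneg _))

variable [FiniteDimensional 𝕜 V]

lemma isCompact_of_iso {K : Set (V →L[𝕜] V)} (hc : IsClosed K) (hi : ∀ g ∈ K, ∀ v, ‖g v‖ = ‖v‖) :
    IsCompact K := by
  haveI : ProperSpace (V →L[𝕜] V) := FiniteDimensional.proper_rclike 𝕜 _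
  refine Metric.isCompact_of_isClosed_isBounded hc ?_
  refine (Metric.isBounded_closedBall (x := (0 : V →L[𝕜] V)) (r := 1)).subset fun g hg => ?_
  rw [mem_closedBall_zero_iff]
  exact norm_le_one_of_iso (hi g hg)

lemma exists_nearest {K : Set (V →L[𝕜] V)} (hK : IsCompact K) (hne : K.Nonempty)
    (a : V →L[𝕜] V) : ∃ μ ∈ K, ∀ κ ∈ K, ‖a - μ‖ ≤ ‖a - κ‖ := by
  obtain ⟨μ, hμ, h⟩ := hK.exists_isMinOn hne
    (f := fun κ => ‖a - κ‖) (by fun_prop)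
  exact ⟨μ, hμ, fun κ hκ => h hκ⟩

/-- Compactness of the unit sphere of operators. -/
lemma exists_unit_limit (U : ℕ → V →L[𝕜] V) (hU : ∀ i, ‖U i‖ = 1) :
    ∃ (U0 : V →L[𝕜] V) (θ : ℕ → ℕ), StrictMono θ ∧ Tendsto (U ∘ θ) atTop (𝓝 U0) := by
  haveI : ProperSpace (V →L[𝕜] V) := FiniteDimensional.proper_rclike 𝕜 _
  obtain ⟨U0, -, θ, hθ, h⟩ := (isCompact_closedBall (0 : V →L[𝕜] V) 1).tendsto_subseq
    (x := U) (fun i => by rw [mem_closedBall_zero_iff, hU])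
  exact ⟨U0, θ, hθ, h⟩

omit [FiniteDimensional 𝕜 V] in
/-- Points at distance `‖E i‖` from `K` in a tangent direction: contradiction. -/
lemma tan_contra {K : Set (V →L[𝕜] V)} {E : ℕ → V →L[𝕜] V} {U : V →L[𝕜] V}
    (hpos : ∀ i, 0 < ‖E i‖) (h0 : Tendsto (fun i => ‖E i‖) atTop (𝓝 0))
    (hU : Tendsto (fun i => ((‖E i‖⁻¹ : ℝ) : 𝕜) • E i) atTop (𝓝 U))
    (hd : ∀ i, ∀ κ ∈ K, ‖E i‖ ≤ ‖1 + E i - κ‖) (C : ℝ)
    (hC : ∀ t : ℝ, 0 ≤ t → t ≤ 1 → ∃ κ ∈ K, ‖1 + ((t : ℝ) : 𝕜) • U - κ‖ ≤ C * t ^ 2) :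
    False := by
  have h1 : Tendsto (fun i => ‖((‖E i‖⁻¹ : ℝ) : 𝕜) • E i - U‖ + C * ‖E i‖) atTop (𝓝 0) := by
    have h2 : Tendsto (fun i => ‖((‖E i‖⁻¹ : ℝ) : 𝕜) • E i - U‖) atTop (𝓝 0) :=
      tendsto_iff_norm_sub_tendsto_zero.1 hU
    simpa using h2.add (h0.const_mul C)
  obtain ⟨i, hi1, hi2⟩ := ((h1.eventually_lt_const one_pos).and
    (h0.eventually_lt_const one_pos)).exists
  obtain ⟨κ, hκ, hκ2⟩ := hC ‖E i‖ (norm_nonneg _) hi2.le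
  have h3 := hd i κ hκ
  have h4 : ‖E i - ((‖E i‖ : ℝ) : 𝕜) • U‖ = ‖E i‖ * ‖((‖E i‖⁻¹ : ℝ) : 𝕜) • E i - U‖ := by
    have h5 : E i - ((‖E i‖ : ℝ) : 𝕜) • U
        = ((‖E i‖ : ℝ) : 𝕜) • (((‖E i‖⁻¹ : ℝ) : 𝕜) • E i - U) := by
      rw [smul_sub, smul_smul, ← RCLike.ofReal_mul, mul_inv_cancel₀ (hpos i).ne',
        RCLike.ofReal_one, one_smul]
    rw [h5, norm_smul, RCLike.norm_ofReal, abs_of_pos (hpos i)]
  have h6 : ‖1 + E i - κ‖ ≤ ‖1 + ((‖E i‖ : ℝ) : 𝕜) • U - κ‖ + ‖E i - ((‖E i‖ : ℝ) : 𝕜) • U‖ := by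
    have h7 : 1 + E i - κ = (1 + ((‖E i‖ : ℝ) : 𝕜) • U - κ) + (E i - ((‖E i‖ : ℝ) : 𝕜) • U) := by
      abel
    rw [h7]
    exact norm_add_le _ _
  rw [h4] at h6
  have h8 := hpos i
  nlinarith [mul_pos h8 (sub_pos.2 hi1)]

end Pool.Agent.BAN.H93
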