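import Pool.Agent.Helper93_BAN.Common

set_option autoImplicit false

/-!
# EB: error bound for the symmetry group (squad BAN)

The general form `ebGen` is for any continuous real function `φ`.
-/

namespace Pool.Agent.BAN.H93

open Filter Topology Set Pool.Agent.BAN

section Gen

variable {𝕜 : Type} [RCLike 𝕜] {V : Type} [NormedAddCommGroup V] [InnerProductSpace 𝕜 V]

/-- The symmetries of an arbitrary function form a closed group if they are isometries. -/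
lemma cgrp_sym [FiniteDimensional 𝕜 V] (φ : V → ℝ) (hφ : Continuous φ)
    (iso : ∀ g : V →L[𝕜] V, (∀ v, φ (g v) = φ v) → ∀ v, ‖g v‖ = ‖v‖) :
    CGrp {g : V →L[𝕜] V | ∀ v, φ (g v) = φ v} := by
  refine ⟨fun v => rfl, ?_, ?_, ?_, fun g hg => iso g hg⟩
  · intro g hg h hh v
    have h1 : (g * h) v = g (h v) := rfl
    rw [h1, hg, hh]
  · intro g hg
    have hinj : Function.Injective (g : V →ₗ[𝕜] V) := by
      rw [← LinearMap.ker_eq_bot, LinearMap.ker_eq_bot']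
      intro v hv
      have h1 : g v = 0 := hv
      have h2 := iso g hg v
      rw [h1, norm_zero] at h2
      exact norm_eq_zero.1 h2.symm
    set e : V ≃ₗ[𝕜] V := LinearEquiv.ofInjectiveEndo (g : V →ₗ[𝕜] V) hinj with he
    have hge : ∀ v, g v = e v := fun v => rfl
    set h : V →L[𝕜] V := LinearMap.toContinuousLinearMap (e.symm : V →ₗ[𝕜] V) with hh
    have hhe : ∀ v, h v = e.symm v := fun v => rfl
    have hgh : ∀ v, g (h v) = v := fun v => by rw [hge, hhe, e.apply_symm_apply]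
    have hhg : ∀ v, h (g v) = v := fun v => by rw [hge, hhe, e.symm_apply_apply]
    refine ⟨h, fun v => ?_, ?_, ?_⟩
    · rw [← hg (h v), hgh]
    · ext v; exact hhg v
    · ext v; exact hgh v
  · have h1 : {g : V →L[𝕜] V | ∀ v, φ (g v) = φ v} = ⋂ v, {g : V →L[𝕜] V | φ (g v) = φ v} := by
      ext g; simp
    rw [h1]
    refine isClosed_iInter fun v => isClosed_eq ?_ continuous_const
    exact hφ.comp (ContinuousLinearMap.apply 𝕜 V v).continuous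

/-- Telescoping along powers. -/
lemma tele (φ : V → ℝ) (h : V →L[𝕜] V) (δ M : ℝ) (hδ : 0 ≤ δ)
    (hb : ∀ v, |φ (h v) - φ v| ≤ δ * ‖v‖) (v : V) (m : ℕ) (hM : ∀ j < m, ‖h ^ j‖ ≤ M) :
    |φ ((h ^ m) v) - φ v| ≤ m * (δ * (M * ‖v‖)) := by
  induction m with
  | zero => simp
  | succ m ih =>
    have ih' := ih (fun j hj => hM j (by omega))
    have h1 : (h ^ (m + 1)) v = h ((h ^ m) v) := by
      rw [pow_succ']; rfl
    have h2 : |φ ((h ^ (m + 1)) v) - φ ((h ^ m) v)| ≤ δ * (M * ‖v‖) := by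
      rw [h1]
      refine (hb _).trans (mul_le_mul_of_nonneg_left ?_ hδ)
      exact ((h ^ m).le_opNorm v).trans
        (mul_le_mul_of_nonneg_right (hM m (by omega)) (norm_nonneg _))
    have h3 : |φ ((h ^ (m + 1)) v) - φ v| ≤
        |φ ((h ^ (m + 1)) v) - φ ((h ^ m) v)| + |φ ((h ^ m) v) - φ v| := abs_sub_le _ _ _
    have h4 : ((m + 1 : ℕ) : ℝ) * (δ * (M * ‖v‖)) = m * (δ * (M * ‖v‖)) + δ * (M * ‖v‖) := by
      rw [Nat.cast_add, Nat.cast_one]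
      ring
    rw [h4]
    linarith

theorem ebGen (hPL : PLStmt) [FiniteDimensional 𝕜 V] (φ : V → ℝ) (hφ : Continuous φ)
    (iso : ∀ g : V →L[𝕜] V, (∀ v, φ (g v) = φ v) → ∀ v, ‖g v‖ = ‖v‖) (R : ℝ) :
    ∃ C : ℝ, 0 ≤ C ∧ ∀ (g : V →L[𝕜] V) (δ : ℝ), ‖g‖ ≤ R → 0 ≤ δ →
      (∀ v, |φ (g v) - φ v| ≤ δ * ‖v‖) →
      ∃ κ : V →L[𝕜] V, (∀ v, φ (κ v) = φ v) ∧ ‖g - κ‖ ≤ C * δ := by
  classical
  set K : Set (V →L[𝕜] V) := {g : V →L[𝕜] V | ∀ v, φ (g v) = φ v} with hKdef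
  have hK : CGrp K := cgrp_sym φ hφ iso
  have hcomp : IsCompact K := isCompact_of_iso hK.closed hK.iso
  by_contra hcon
  push Not at hcon
  choose g δ hgR hδ0 hb hno using fun i : ℕ => hcon ((i : ℝ) + 1) (by positivity)
  have hno' : ∀ i : ℕ, ∀ κ ∈ K, ((i : ℝ) + 1) * δ i < ‖g i - κ‖ := fun i κ hκ => hno i κ hκ
  -- δ → 0
  have hδt : Tendsto δ atTop (𝓝 0) := by
    have h := (tendsto_one_div_add_atTop_nhds_zero_nat (𝕜 := ℝ)).const_mul (R + 1)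
    rw [mul_zero] at h
    refine squeeze_zero hδ0 (fun i => ?_) h
    have h1 := hno' i 1 hK.one
    have h2 : ‖g i - 1‖ ≤ R + 1 := by
      refine (norm_sub_le _ _).trans (add_le_add (hgR i) ?_)
      exact ContinuousLinearMap.norm_id_le
    have h3 : (0 : ℝ) < (i : ℝ) + 1 := by positivity
    rw [mul_one_div, le_div_iff₀ h3, mul_comm]
    linarith
  have : ProperSpace (V →L[𝕜] V) := FiniteDimensional.proper_rclike 𝕜 _
  obtain ⟨g0, -, θ₁, hθ₁, hg0⟩ := (isCompact_closedBall (0 : V →L[𝕜] V) R).tendsto_subseq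
    (x := g) (fun i => by rw [mem_closedBall_zero_iff]; exact hgR i)
  have hg0K : g0 ∈ K := fun v => by
    have h1 : Tendsto (fun i => φ ((g (θ₁ i)) v)) atTop (𝓝 (φ (g0 v))) :=
      (hφ.tendsto _).comp (((ContinuousLinearMap.apply 𝕜 V v).continuous.tendsto g0).comp hg0)
    have h2 : Tendsto (fun i => φ ((g (θ₁ i)) v)) atTop (𝓝 (φ v)) := by
      rw [tendsto_iff_norm_sub_tendsto_zero]
      have h3 : Tendsto (fun i => δ (θ₁ i) * ‖v‖) atTop (𝓝 0) := by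
        simpa using (hδt.comp hθ₁.tendsto_atTop).mul_const ‖v‖
      exact squeeze_zero (fun _ => norm_nonneg _) (fun i => hb (θ₁ i) v) h3
    exact tendsto_nhds_unique h1 h2
  choose μ hμK hμmin using fun i => exists_nearest hcomp ⟨1, hK.one⟩ (g i)
  choose n hnK hn1 hn2 using fun i => hK.inv (μ i) (hμK i)
  set E : ℕ → V →L[𝕜] V := fun i => n i * g i - 1 with hE
  have hμE : ∀ i, μ i * E i = g i - μ i := fun i => by
    simp only [hE, mul_sub, mul_one, ← mul_assoc, hn2, one_mul]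
  have hEnorm : ∀ i, ‖E i‖ = ‖g i - μ i‖ := fun i => by
    rw [← hμE i, norm_mul_of_iso (hK.iso _ (hμK i))]
  have hEδ : ∀ i : ℕ, ((i : ℝ) + 1) * δ i < ‖E i‖ := fun i => by
    rw [hEnorm]; exact hno' i _ (hμK i)
  have hEpos : ∀ i, 0 < ‖E i‖ := fun i => by
    refine lt_of_le_of_lt ?_ (hEδ i)
    exact mul_nonneg (by positivity) (hδ0 i)
  have hEd : ∀ i, ∀ κ' ∈ K, ‖E i‖ ≤ ‖1 + E i - κ'‖ := fun i κ' hκ' => by
    have h1 : μ i * (1 + E i - κ') = g i - μ i * κ' := by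
      rw [mul_sub, mul_add, hμE i, mul_one]
      abel
    have h2 : ‖1 + E i - κ'‖ = ‖g i - μ i * κ'‖ := by
      rw [← h1, norm_mul_of_iso (hK.iso _ (hμK i))]
    rw [h2, hEnorm]
    exact hμmin i _ (hK.mul _ (hμK i) _ hκ')
  have hE0 : Tendsto (fun i => ‖E (θ₁ i)‖) atTop (𝓝 0) := by
    refine squeeze_zero (fun _ => norm_nonneg _) (fun i => ?_)
      (tendsto_iff_norm_sub_tendsto_zero.1 hg0)
    rw [hEnorm]
    exact hμmin _ _ hg0K
  set U : ℕ → V →L[𝕜] V := fun i => ((‖E i‖⁻¹ : ℝ) : 𝕜) • E i with hU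
  have hUnorm : ∀ i, ‖U i‖ = 1 := fun i => by
    simp only [hU]
    rw [norm_smul, RCLike.norm_ofReal, abs_of_pos (inv_pos.2 (hEpos i)),
      inv_mul_cancel₀ (hEpos i).ne']
  have hEU : ∀ i, E i = ((‖E i‖ : ℝ) : 𝕜) • U i := fun i => by
    simp only [hU]
    rw [smul_smul, ← RCLike.ofReal_mul, mul_inv_cancel₀ (hEpos i).ne',
      RCLike.ofReal_one, one_smul]
  obtain ⟨U0, θ₂, hθ₂, hUθ⟩ := exists_unit_limit (U ∘ θ₁) (fun i => hUnorm _)
  have hθ₂t : Tendsto θ₂ atTop atTop := hθ₂.tendsto_atTop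
  have hθt : Tendsto (θ₁ ∘ θ₂) atTop atTop := hθ₁.tendsto_atTop.comp hθ₂t
  have hE0' : Tendsto (fun i => ‖E (θ₁ (θ₂ i))‖) atTop (𝓝 0) := hE0.comp hθ₂t
  -- the bound for `h = n g`
  have hh : ∀ i, 1 + ((‖E i‖ : ℝ) : 𝕜) • U i = n i * g i := fun i => by
    rw [← hEU i]
    simp only [hE]
    abel
  have hhb : ∀ i v, |φ ((n i * g i) v) - φ v| ≤ δ i * ‖v‖ := fun i v => by
    have h1 : (n i * g i) v = n i (g i v) := rfl
    rw [h1, hnK i]
    exact hb i v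
  have hhn : ∀ i, ‖n i * g i‖ ≤ 1 + ‖E i‖ := fun i => by
    rw [← hh i, ← hEU i]
    refine (norm_add_le _ _).trans (add_le_add_left ?_ _)
    exact ContinuousLinearMap.norm_id_le
  have hpowb : ∀ i : ℕ, ∀ t : ℝ, 0 ≤ t → t ≤ 1 → ∀ v,
      |φ (((n i * g i) ^ ⌊t / ‖E i‖⌋₊) v) - φ v| ≤ 1 / ((i : ℝ) + 1) * (Real.exp 1 * ‖v‖) := by
    intro i t ht0 ht1 v
    have hm : (⌊t / ‖E i‖⌋₊ : ℝ) ≤ t / ‖E i‖ := Nat.floor_le (div_nonneg ht0 (norm_nonneg _))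
    have hm1 : (⌊t / ‖E i‖⌋₊ : ℝ) * ‖E i‖ ≤ 1 := by
      have := (le_div_iff₀ (hEpos i)).1 hm
      linarith
    have hMj : ∀ j < ⌊t / ‖E i‖⌋₊, ‖(n i * g i) ^ j‖ ≤ Real.exp 1 := by
      intro j hj
      have hjm : (j : ℝ) ≤ (⌊t / ‖E i‖⌋₊ : ℝ) := by exact_mod_cast hj.le
      calc ‖(n i * g i) ^ j‖ ≤ ‖n i * g i‖ ^ j := norm_pow_le _ _
        _ ≤ (1 + ‖E i‖) ^ j := pow_le_pow_left₀ (norm_nonneg _) (hhn i) _
        _ ≤ (Real.exp ‖E i‖) ^ j := by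
          refine pow_le_pow_left₀ (by positivity) ?_ _
          rw [add_comm]
          exact Real.add_one_le_exp _
        _ = Real.exp (j * ‖E i‖) := by rw [← Real.exp_nat_mul]
        _ ≤ Real.exp 1 := Real.exp_le_exp.2
          ((mul_le_mul_of_nonneg_right hjm (norm_nonneg _)).trans hm1)
    have h1 := tele φ (n i * g i) (δ i) (Real.exp 1) (hδ0 i) (hhb i) v _ hMj
    refine h1.trans ?_
    have h2 : (⌊t / ‖E i‖⌋₊ : ℝ) * δ i ≤ 1 / ((i : ℝ) + 1) := by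
      have hi : (0 : ℝ) < (i : ℝ) + 1 := by positivity
      rw [le_div_iff₀ hi]
      have h3 : (⌊t / ‖E i‖⌋₊ : ℝ) * (((i : ℝ) + 1) * δ i) ≤ (⌊t / ‖E i‖⌋₊ : ℝ) * ‖E i‖ :=
        mul_le_mul_of_nonneg_left (hEδ i).le (Nat.cast_nonneg _)
      nlinarith
    have h4 : 0 ≤ Real.exp 1 * ‖v‖ := by positivity
    calc (⌊t / ‖E i‖⌋₊ : ℝ) * (δ i * (Real.exp 1 * ‖v‖))
        = ((⌊t / ‖E i‖⌋₊ : ℝ) * δ i) * (Real.exp 1 * ‖v‖) := by ring
      _ ≤ 1 / ((i : ℝ) + 1) * (Real.exp 1 * ‖v‖) := mul_le_mul_of_nonneg_right h2 h4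
  obtain ⟨C, hC0, hC⟩ := hPL 𝕜 V K hK.closed (fun i => ‖E (θ₁ (θ₂ i))‖) (U ∘ θ₁ ∘ θ₂) U0
    (fun i => hEpos _) hE0' hUθ (by
      intro t ht0 ht1 η hη H hH v
      have hidx : Tendsto (fun i => θ₁ (θ₂ (η i))) atTop atTop :=
        hθt.comp hη.tendsto_atTop
      have hH' : Tendsto (fun i => (n (θ₁ (θ₂ (η i))) * g (θ₁ (θ₂ (η i)))) ^
          ⌊t / ‖E (θ₁ (θ₂ (η i)))‖⌋₊) atTop (𝓝 H) := by
        refine hH.congr fun i => ?_
        rw [← hh (θ₁ (θ₂ (η i)))]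
        rfl
      have h1 : Tendsto (fun i => φ (((n (θ₁ (θ₂ (η i))) * g (θ₁ (θ₂ (η i)))) ^
          ⌊t / ‖E (θ₁ (θ₂ (η i)))‖⌋₊) v)) atTop (𝓝 (φ (H v))) :=
        (hφ.tendsto _).comp (((ContinuousLinearMap.apply 𝕜 V v).continuous.tendsto H).comp hH')
      have h2 : Tendsto (fun i => φ (((n (θ₁ (θ₂ (η i))) * g (θ₁ (θ₂ (η i)))) ^
          ⌊t / ‖E (θ₁ (θ₂ (η i)))‖⌋₊) v)) atTop (𝓝 (φ v)) := by
        rw [tendsto_iff_norm_sub_tendsto_zero]
        have h3 : Tendsto (fun i => 1 / (((θ₁ (θ₂ (η i)) : ℕ) : ℝ) + 1) * (Real.exp 1 * ‖v‖))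
            atTop (𝓝 0) := by
          have h4 := ((tendsto_one_div_add_atTop_nhds_zero_nat (𝕜 := ℝ)).comp hidx).mul_const
            (Real.exp 1 * ‖v‖)
          rw [zero_mul] at h4
          exact h4
        exact squeeze_zero (fun _ => norm_nonneg _) (fun i => hpowb _ t ht0 ht1 v) h3
      exact tendsto_nhds_unique h1 h2)
  exact tan_contra (K := K) (E := E ∘ θ₁ ∘ θ₂) (U := U0) (fun i => hEpos _) hE0' hUθ
    (fun i => hEd _) C hC

end Gen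

theorem eb (hPL : PLStmt) : EBStmt := by
  intro 𝕜 _ V _ _ _ φ _ iso R
  have hφ : Continuous φ := by
    set b := stdOrthonormalBasis 𝕜 V with hb
    set M : ℝ := ∑ i, φ (b i) with hM
    have hM0 : 0 ≤ M := Finset.sum_nonneg fun i _ => apply_nonneg φ _
    have h1 : ∀ v, φ v ≤ M * ‖v‖ := by
      intro v
      calc φ v = φ (∑ i, (inner 𝕜 (b i) v) • b i) := by rw [b.sum_repr' v]
        _ ≤ ∑ i, φ ((inner 𝕜 (b i) v) • b i) :=
          Finset.le_sum_of_subadditive φ (map_zero φ).le (fun x y => map_add_le_add φ x y) _ _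
        _ ≤ ∑ i, φ (b i) * ‖v‖ := by
          refine Finset.sum_le_sum fun i _ => ?_
          rw [map_smul_eq_mul, mul_comm]
          refine mul_le_mul_of_nonneg_left ?_ (apply_nonneg φ _)
          refine (norm_inner_le_norm _ _).trans ?_
          rw [b.norm_eq_one, one_mul]
        _ = M * ‖v‖ := by rw [hM, Finset.sum_mul]
    have h2 : LipschitzWith ⟨M, hM0⟩ φ := by
      refine LipschitzWith.of_dist_le_mul fun x y => ?_
      rw [Real.dist_eq, dist_eq_norm]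
      refine le_trans ?_ (h1 (x - y))
      exact abs_sub_map_le_sub φ x y
    exact h2.continuous
  obtain ⟨C, hC0, hC⟩ := ebGen hPL (φ : V → ℝ) hφ iso R
  exact ⟨C, hC0, fun g δ h1 h2 h3 => hC g δ h1 h2 h3⟩

end Pool.Agent.BAN.H93
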